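import Pool.Agent.Y356.WD.Metric
import Pool.Agent.Y356.WD.Graph

/-!
MP_0b3830_co, in a strong form: the complete graph on `N` vertices has a weighting for which all but
`O(log N)` eigenvalues of the weighted distance matrix are positive, and for every weighting of
every connected graph on `N` vertices at least `c log N / log log N` eigenvalues are not positive.
So the smallest forbidden minors for at most `n` positive eigenvalues have between
`n + c log n / log log n` and `n + C log n` vertices; the equivalence of Q1 fails for every `n ≥ 2`.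
-/

set_option autoImplicit false

namespace Pool.Agent.Results.MP_0b3830_co.LogarithmicDefect

open Pool.Agent.Results.MP_0b3830_co.FailsForAllNAtLeastTwo Pool.Agent.Y356.WD

lemma log_two_le : Real.log 2 ≤ 7 / 10 := by
  have := Real.log_two_lt_d9
  linarith

lemma log_seven_le : Real.log 7 ≤ 2 := by
  rw [Real.log_le_iff_le_exp (by norm_num)]
  have h1 := Real.exp_one_gt_d9
  have h2 : Real.exp 2 = Real.exp 1 * Real.exp 1 := by rw [← Real.exp_add]; norm_num
  rw [h2]
  nlinarith

/-- the choice of the parameters -/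
lemma choice {L : ℝ} (hL : 0 ≤ L) : ∃ (d : ℕ) (M : ℝ), 0 < M ∧ 3 * M < d ∧ (d : ℝ) ≤ 18 * L + 7 ∧
    L ≤ M ^ 2 / (2 * d) := by
  obtain ⟨m, hm⟩ : ∃ m : ℕ, m = ⌈6 * L⌉₊ + 1 := ⟨_, rfl⟩
  have h1 : 6 * L + 1 ≤ (m : ℝ) := by
    rw [hm]
    push_cast
    linarith [Nat.le_ceil (6 * L)]
  have h2 : (m : ℝ) < 6 * L + 2 := by
    rw [hm]
    push_cast
    linarith [Nat.ceil_lt_add_one (by positivity : 0 ≤ 6 * L)]
  refine ⟨3 * m + 1, m, by linarith, by push_cast; linarith, by push_cast; linarith, ?_⟩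
  push_cast
  rw [le_div_iff₀ (by positivity)]
  nlinarith

lemma weighting {L : ℝ} {N : ℕ} (hN : (2 * N : ℝ) ≤ Real.exp L) (hL : 0 ≤ L) :
    ∃ d : ℕ, (d : ℝ) ≤ 18 * L + 7 ∧ ∀ N' : ℕ, N' ≤ N →
      ∃ φ : Sym2 (Fin N') → ℝ, (∀ e ∈ (⊤ : SimpleGraph (Fin N')).edgeSet, 0 < φ e) ∧
        N' ≤ numPos (distMatrix (⊤ : SimpleGraph (Fin N')) φ) + d := by
  obtain ⟨d, M, hM, hMd, hd, hLM⟩ := choice hL
  refine ⟨d, hd, fun N' hN' => complete_weighting hM hMd ?_⟩
  have h1 : Real.exp L ≤ Real.exp (M ^ 2 / (2 * d)) := Real.exp_le_exp.2 hLM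
  have h2 : (N' : ℝ) ≤ N := by exact_mod_cast hN'
  rw [Real.exp_neg]
  have h3 := Real.exp_pos (M ^ 2 / (2 * d))
  calc (N' : ℝ) * (2 * (Real.exp (M ^ 2 / (2 * d)))⁻¹)
      = (2 * N') * (Real.exp (M ^ 2 / (2 * d)))⁻¹ := by ring
    _ ≤ Real.exp (M ^ 2 / (2 * d)) * (Real.exp (M ^ 2 / (2 * d)))⁻¹ :=
        mul_le_mul_of_nonneg_right (by linarith) (by positivity)
    _ = 1 := mul_inv_cancel₀ h3.ne'

lemma le_of_le_pow {n r : ℕ} (hn : 2 ≤ n) (h : n ≤ (641 * r) ^ (4 * r)) :
    Real.log n / (4 * Real.log (641 * Real.log n)) ≤ r := by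
  have hnr : (2 : ℝ) ≤ n := by exact_mod_cast hn
  obtain ⟨L, hL⟩ : ∃ L, L = Real.log n := ⟨_, rfl⟩
  have hL0 : 69 / 100 ≤ L := by
    have h1 := Real.log_two_gt_d9
    have h2 := Real.log_le_log (by norm_num) hnr
    rw [hL]
    linarith
  have hr : 1 ≤ r := by
    by_contra hcon
    have h1 : r = 0 := by omega
    rw [h1] at h
    simp at h
    omega
  have hrr : (1 : ℝ) ≤ r := by exact_mod_cast hr
  have h1 : L ≤ 4 * r * Real.log (641 * r) := by
    have h2 : (n : ℝ) ≤ (641 * r) ^ (4 * r) := by exact_mod_cast h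
    have h3 := Real.log_le_log (by linarith) h2
    rw [Real.log_pow] at h3
    rw [hL]
    push_cast at h3
    exact h3
  have hQ : 1 ≤ Real.log (641 * L) := by
    rw [Real.le_log_iff_exp_le (by linarith)]
    have := Real.exp_one_lt_d9
    linarith
  rw [← hL, div_le_iff₀ (by linarith)]
  rcases le_or_gt (r : ℝ) L with hc | hc
  · have h2 : Real.log (641 * r) ≤ Real.log (641 * L) :=
      Real.log_le_log (by linarith) (by linarith)
    nlinarith
  · nlinarith

/-- (1) For every `N ≥ 1` the complete graph on `N` vertices has a positive edge weighting for which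
the weighted distance matrix has at least `N - 18 log N - 20` positive eigenvalues.
(2) For every positive edge weighting of every connected graph with `N ≥ 2` vertices, the weighted
distance matrix has at most `N - log N / (4 log (641 log N))` positive eigenvalues.
(3) For every `n ≥ 2` there is a complete graph with at most `3 n + 1` and at most
`n + 18 log n + 44` vertices which has no `K_{2,3,…,3}` minor (`n` threes), but has a positive edge
weighting with at least `n + 1` positive eigenvalues.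
(4) Every connected graph with a positive edge weighting with at least `n + 1` positive
eigenvalues has at least `n + 1 + log n / (4 log (641 log n))` vertices (`n ≥ 2`).
(5) The equivalence of Q1 fails for every `n ≥ 2`. -/
theorem result :
    (∀ N : ℕ, 1 ≤ N → ∃ φ : Sym2 (Fin N) → ℝ,
      (∀ e ∈ (⊤ : SimpleGraph (Fin N)).edgeSet, 0 < φ e) ∧
      (N : ℝ) - 18 * Real.log N - 20 ≤ numPos (distMatrix (⊤ : SimpleGraph (Fin N)) φ)) ∧
    (∀ (V : Type) [Fintype V] [DecidableEq V] (G : SimpleGraph V) (φ : Sym2 V → ℝ), G.Connected →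
      (∀ e ∈ G.edgeSet, 0 < φ e) → 2 ≤ Fintype.card V →
      (numPos (distMatrix G φ) : ℝ) ≤ Fintype.card V -
        Real.log (Fintype.card V) / (4 * Real.log (641 * Real.log (Fintype.card V)))) ∧
    (∀ n : ℕ, 2 ≤ n → ∃ (V : Type) (_ : Fintype V) (_ : DecidableEq V),
      Fintype.card V ≤ 3 * n + 1 ∧ (Fintype.card V : ℝ) ≤ n + 18 * Real.log n + 44 ∧
      ¬ IsMinor (K23 n) (⊤ : SimpleGraph V) ∧
      ∃ φ : Sym2 V → ℝ, (∀ e ∈ (⊤ : SimpleGraph V).edgeSet, 0 < φ e) ∧
        n + 1 ≤ numPos (distMatrix (⊤ : SimpleGraph V) φ)) ∧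
    (∀ n : ℕ, 2 ≤ n → ∀ (V : Type) [Fintype V] [DecidableEq V] (G : SimpleGraph V)
      (φ : Sym2 V → ℝ), G.Connected → (∀ e ∈ G.edgeSet, 0 < φ e) →
      n + 1 ≤ numPos (distMatrix G φ) →
      (n : ℝ) + 1 + Real.log n / (4 * Real.log (641 * Real.log n)) ≤ Fintype.card V) ∧
    (∀ n : ℕ, 2 ≤ n → ¬ QOneFor n) := by
  have hle : ∀ (V : Type) [Fintype V] [DecidableEq V] (G : SimpleGraph V) (φ : Sym2 V → ℝ),
      numPos (distMatrix G φ) ≤ Fintype.card V := by
    intro V _ _ G φ
    unfold numPos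
    refine (Multiset.card_le_card (Multiset.filter_le _ _)).trans ?_
    refine (Polynomial.card_roots' _).trans ?_
    rw [Matrix.charpoly_natDegree_eq_dim]
  refine ⟨fun N hN => ?_, fun V _ _ G φ hG hφ hV => ?_, fun n hn => ?_,
    fun n hn V _ _ G φ hG hφ hpos => ?_, FailsForAllNAtLeastTwo.result.2.1⟩
  · have hNr : (1 : ℝ) ≤ N := by exact_mod_cast hN
    have hlog : Real.log (2 * N) = Real.log 2 + Real.log N :=
      Real.log_mul (by norm_num) (by positivity)
    obtain ⟨d, hd, h⟩ := weighting (L := Real.log (2 * N)) (N := N)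
      (by rw [Real.exp_log (by positivity)]) (Real.log_nonneg (by linarith))
    obtain ⟨φ, h1, h2⟩ := h N le_rfl
    refine ⟨φ, h1, ?_⟩
    have h3 : (N : ℝ) ≤ numPos (distMatrix (⊤ : SimpleGraph (Fin N)) φ) + d := by
      exact_mod_cast h2
    have := log_two_le
    rw [hlog] at hd
    linarith
  · have h1 := le_of_le_pow hV (graph_lower hG hφ)
    rw [Nat.cast_sub (hle V G φ)] at h1
    linarith
  · have hnr : (2 : ℝ) ≤ n := by exact_mod_cast hn
    by_cases hcase : 2 * (n : ℝ) + 1 ≤ 18 * Real.log n + 44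
    · obtain ⟨V, i1, i2, h1, h2, h3⟩ := FailsForAllNAtLeastTwo.result.1 n hn
      refine ⟨V, i1, i2, h1.le, ?_, h2, h3⟩
      rw [h1]
      push_cast
      linarith
    · push Not at hcase
      have hlog : Real.log (7 * n) = Real.log 7 + Real.log n :=
        Real.log_mul (by norm_num) (by positivity)
      have h7 := log_seven_le
      obtain ⟨d, hd, h⟩ := weighting (L := Real.log (7 * n)) (N := 3 * n + 1)
        (by rw [Real.exp_log (by positivity)]; push_cast; linarith)
        (Real.log_nonneg (by linarith))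
      rw [hlog] at hd
      have hN : n + 1 + d ≤ 3 * n + 1 := by
        have h1 : ((n + 1 + d : ℕ) : ℝ) ≤ ((3 * n + 1 : ℕ) : ℝ) := by
          push_cast
          linarith
        exact_mod_cast h1
      obtain ⟨φ, h1, h2⟩ := h (n + 1 + d) hN
      refine ⟨Fin (n + 1 + d), inferInstance, inferInstance, ?_, ?_, ?_, φ, h1, by omega⟩
      · rw [Fintype.card_fin]
        exact hN
      · rw [Fintype.card_fin]
        push_cast
        linarith
      · intro hm
        have h3 := hm.card_le
        rw [card_K23, Fintype.card_fin] at h3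
        omega
  · have h2 := hle V G φ
    have h1 := le_of_le_pow (n := n) (r := Fintype.card V - numPos (distMatrix G φ)) hn
      ((by omega : n ≤ Fintype.card V).trans (graph_lower hG hφ))
    rw [Nat.cast_sub h2] at h1
    have h3 : (n : ℝ) + 1 ≤ numPos (distMatrix G φ) := by exact_mod_cast hpos
    linarith

end Pool.Agent.Results.MP_0b3830_co.LogarithmicDefect
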